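import Pool.Agent.V1164.QD.Sq4

set_option autoImplicit false

/-!
# Restricted quasi-diagonals in the odd powers of every complex elliptic curve

`E = ℂ / Λ` is an arbitrary complex elliptic curve, with or without complex multiplication. In
`E³` the curve `S` is the closure of the set of the points `(x, y, z)` with `x + y + z = 0` and
`ζ(x) + ζ(y) + ζ(z) = c`, for general `c`: these are the ordered triples of points of the plane
cubic `E` which lie on a line through a general point `q` of the line at infinity. The function
`f = ℘' + 2 c ℘` is the projection from `q`, it has the same value at the three coordinates of a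
point of `S`, and `L = O(3 • [0])` is the pull back of `O(1)` along `f`. In `Eⁿ`, `n ≥ 5` odd, the
coordinates `-x, x, -x, x, …` are added.
-/

namespace Pool.Agent.Results.MP_9fbe61_ag.OddPowers

open Pool.Agent.V1164.QD

/-- For every complex elliptic curve `E = ℂ / Λ` (in particular if `E` has no complex
multiplication) and every odd `n ≥ 3` there are an ample line bundle `L` on `E` and a restricted
quasi-diagonal over `(E, L)` in `Eⁿ`. -/
theorem result (P : PeriodPair) (n : ℕ) (hn : 3 ≤ n) (hodd : Odd n) :
    ∃ (L : LineBundle P) (S : Set (Fin n → Ell P)),
      L.IsAmple ∧ IsQuasiDiagonal L S ∧ IsRestricted S := by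
  obtain ⟨c, hc⟩ := exists_goodC P
  exact ⟨(T3 P).bundle, (embOdd n hn).image (Sq P c), (T3 P).isAmple_bundle, quasi_SqOdd hc hn,
    restricted_Sq hn hodd⟩

end Pool.Agent.Results.MP_9fbe61_ag.OddPowers
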